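import Pool.Agent.Helper49.NF.Goals

/-! # NF-N2I: numerical -/

set_option autoImplicit false

namespace Pool.Agent.Helper76.NF

open Pool.Agent.Helper49.NF

theorem odd_step (i b : ℕ) (hb : b ≤ i) : (2 * i + 1).choose b ≤ 2 * (2 * i).choose b := by
  have e : (2 * i).choose b * (2 * i + 1) = (2 * i + 1).choose b * (2 * i + 1 - b) :=
    Nat.choose_mul_succ_eq (2 * i) b
  have hpos : 0 < 2 * i + 1 := by omega
  refine le_of_mul_le_mul_right ?_ hpos
  calc (2 * i + 1).choose b * (2 * i + 1)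
      ≤ (2 * i + 1).choose b * (2 * (2 * i + 1 - b)) := Nat.mul_le_mul_left _ (by omega)
    _ = 2 * ((2 * i + 1).choose b * (2 * i + 1 - b)) := by ring
    _ = 2 * (2 * i).choose b * (2 * i + 1) := by rw [← e]; ring

theorem five_four (b t : ℕ) (hb : 4 * (t + 1) ≤ b) : 2 * 4 ^ b * 2 ^ t ≤ 5 ^ b := by
  obtain ⟨c, rfl⟩ := Nat.exists_eq_add_of_le hb
  calc 2 * 4 ^ (4 * (t + 1) + c) * 2 ^ t = (2 * 4 ^ 4) ^ (t + 1) * 4 ^ c := by
        rw [pow_add, pow_mul, mul_pow]; ring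
    _ ≤ (5 ^ 4) ^ (t + 1) * 5 ^ c :=
        Nat.mul_le_mul (Nat.pow_le_pow_left (by norm_num) _) (Nat.pow_le_pow_left (by norm_num) _)
    _ = 5 ^ (4 * (t + 1) + c) := by rw [pow_add 5 (4 * (t + 1)) c, pow_mul]

theorem goal_N2I (h0 : Goal_RAT) (h1 : Goal_N2X) : Goal_N2I := by
  obtain ⟨n₀, hn₀⟩ := h1
  refine ⟨n₀, ?_⟩
  intro n hn m K f s h2 h3 h4 h5 h6 h7 h8
  obtain ⟨-, t, ht, ht'⟩ := hn₀ n hn m K f s h2 h4 h5 h6 h8.le
  have hs : 0 < s := by omega
  have hb : m / s * s ≤ m := Nat.div_mul_le_self m s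
  have hbt : 4 * (t + 1) ≤ m / s := by
    rw [Nat.le_div_iff_mul_le hs]
    have : 4 * (t + 1) * s ≤ 1000 * (s * (t + 2)) := by nlinarith
    omega
  have hb2 : 2 * (m / s) ≤ m := by
    have : m / s * 2 ≤ m / s * s := Nat.mul_le_mul_left _ h7
    omega
  have hbi : m / s ≤ n / (2 * s) := by
    rw [← Nat.div_div_eq_div_mul]
    exact Nat.div_le_div_right (by omega)
  have hns : n / s ≤ 2 * (n / (2 * s)) + 1 := by
    rw [mul_comm 2 s, ← Nat.div_div_eq_div_mul]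
    omega
  set b := m / s with hbdef
  set i := n / (2 * s) with hidef
  have key : 5 ^ b * (n / s).choose b ≤ 2 * 4 ^ b * (m + i).choose m := by
    calc 5 ^ b * (n / s).choose b ≤ 5 ^ b * (2 * i + 1).choose b :=
          Nat.mul_le_mul_left _ (Nat.choose_le_choose _ hns)
      _ ≤ 5 ^ b * (2 * (2 * i).choose b) := Nat.mul_le_mul_left _ (odd_step i b hbi)
      _ = 2 * (5 ^ b * (2 * i).choose b) := by ring
      _ ≤ 2 * (4 ^ b * (2 * b + i).choose (2 * b)) := Nat.mul_le_mul_left _ (h0 b i)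
      _ = 2 * (4 ^ b * (2 * b + i).choose i) := by
          rw [Nat.choose_symm_of_eq_add (a := 2 * b) (b := i) rfl]
      _ ≤ 2 * (4 ^ b * (m + i).choose i) := by
          refine Nat.mul_le_mul_left _ (Nat.mul_le_mul_left _ (Nat.choose_le_choose _ ?_))
          omega
      _ = 2 * 4 ^ b * (m + i).choose m := by
          rw [Nat.choose_symm_of_eq_add (a := m) (b := i) rfl]; ring
  have hpos : 0 < 2 * 4 ^ b := by positivity
  refine le_of_mul_le_mul_left ?_ hpos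
  calc 2 * 4 ^ b * (128 * (n + 1) * Bb n K f m s)
      = 2 * 4 ^ b * (128 * (n + 1) * (4 ^ f * (K * n) ^ (s + 1) * (n + 1) ^ 2)) *
        (n / s).choose b := by
        unfold Bb; ring
    _ ≤ 2 * 4 ^ b * 2 ^ t * (n / s).choose b :=
        Nat.mul_le_mul_right _ (Nat.mul_le_mul_left _ ht)
    _ ≤ 5 ^ b * (n / s).choose b := Nat.mul_le_mul_right _ (five_four b t hbt)
    _ ≤ _ := key

end Pool.Agent.Helper76.NF
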