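import Pool.Agent.Helper49.NF.Goals

/-! # NF-N2J: numerical -/

set_option autoImplicit false

namespace Pool.Agent.Helper76.NF

open Pool.Agent.Helper49.NF

theorem step2 (a c : ℕ) (hc : c + 1 ≤ a) : 2 * (a + c).choose c ≤ (a + c + 1).choose (c + 1) := by
  have e : (a + c + 1).choose (c + 1) * (c + 1) = (a + c + 1) * (a + c).choose c :=
    (Nat.add_one_mul_choose_eq (a + c) c).symm
  refine le_of_mul_le_mul_right ?_ (Nat.succ_pos c)
  calc 2 * (a + c).choose c * (c + 1) = (2 * (c + 1)) * (a + c).choose c := by ring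
    _ ≤ (a + c + 1) * (a + c).choose c := Nat.mul_le_mul_right _ (by omega)
    _ = (a + c + 1).choose (c + 1) * (c + 1) := e.symm

theorem step2t (a b : ℕ) : ∀ t : ℕ, b + t ≤ a →
    2 ^ t * (a + b).choose b ≤ (a + (b + t)).choose (b + t) := by
  intro t
  induction t with
  | zero => intro _; simp
  | succ t ih =>
    intro h
    calc 2 ^ (t + 1) * (a + b).choose b = 2 * (2 ^ t * (a + b).choose b) := by ring
      _ ≤ 2 * (a + (b + t)).choose (b + t) := Nat.mul_le_mul_left _ (ih (by omega))
      _ ≤ (a + (b + t) + 1).choose (b + t + 1) := step2 a (b + t) (by omega)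

theorem goal_N2J (h1 : Goal_N2X) : Goal_N2J := by
  obtain ⟨n₀, hn₀⟩ := h1
  refine ⟨n₀, ?_⟩
  intro n hn m K f s h2 h3 h4 h5 h6 h7 h8
  obtain ⟨-, t, ht, ht'⟩ := hn₀ n hn m K f s h2 h4 h5 h6 h8.le
  have hs : 0 < s := by omega
  have hb : m / s * s ≤ m := Nat.div_mul_le_self m s
  refine ⟨m / s + t, ?_, ?_⟩
  · have hbt : m / s + t ≤ m := by
      have : s * (m / s + t) ≤ 2 * m := by
        have e : s * (m / s + t) + 2 * s = m / s * s + s * (t + 2) := by ring
        omega
      have h9 : 2 * (m / s + t) ≤ s * (m / s + t) := Nat.mul_le_mul_right _ h7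
      omega
    have ha : m / s + t ≤ n - m := by omega
    have hns : n / s ≤ n - m + m / s := by
      have h9 : n / s ≤ n / 2 := Nat.div_le_div_left h7 (by norm_num)
      have h10 : 0 ≤ m / s := Nat.zero_le _
      omega
    have hsymm : (n - m + (m / s + t)).choose (n - m) =
        (n - m + (m / s + t)).choose (m / s + t) := by
      rw [Nat.choose_symm_of_eq_add rfl]
    rw [hsymm]
    calc 128 * (n + 1) * Bb n K f m s
        = 128 * (n + 1) * (4 ^ f * (K * n) ^ (s + 1) * (n + 1) ^ 2) * (n / s).choose (m / s) := by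
          unfold Bb; ring
      _ ≤ 2 ^ t * (n - m + m / s).choose (m / s) :=
          Nat.mul_le_mul ht (Nat.choose_le_choose _ hns)
      _ ≤ _ := step2t (n - m) (m / s) t ha
  · have e : 100 * (s * (m / s + t + 1)) + 100 * s = 100 * (m / s * s) + 100 * (s * (t + 2)) := by
      ring
    omega

end Pool.Agent.Helper76.NF
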