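import Pool.Agent.Helper49.NF.Goals

/-! # NF-RAT: a ratio of binomial coefficients -/

set_option autoImplicit false

namespace Pool.Agent.Helper76.NF

open Pool.Agent.Helper49.NF

theorem rat_num (b h : ℕ) (hb : b < 2 * h) :
    10 * (2 * b + 1) * (2 * h - b) ≤ 4 * (2 * b + h + 2) * (2 * b + h + 1) := by
  zify [hb.le]
  have key : (4 : ℤ) * (2 * b + h + 2) * (2 * b + h + 1) - 10 * (2 * b + 1) * (2 * h - b) =
      4 * ((h : ℤ) - 3 * b - 1) ^ 2 + 10 * b + 4 := by ring
  have h2 : (0 : ℤ) ≤ 4 * ((h : ℤ) - 3 * b - 1) ^ 2 + 10 * b + 4 := by positivity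
  linarith

theorem goal_RAT : Goal_RAT := by
  intro b h
  induction b with
  | zero => simp
  | succ b ih =>
    rcases Nat.lt_or_ge b (2 * h) with hb | hb
    · have e1 : (2 * h).choose (b + 1) * (b + 1) = (2 * h).choose b * (2 * h - b) :=
        Nat.choose_succ_right_eq _ _
      have e2 : (2 * b + h + 2).choose (2 * b + 2) * (2 * b + 2) =
          (2 * b + h + 2) * (2 * b + h + 1).choose (2 * b + 1) :=
        (Nat.add_one_mul_choose_eq (2 * b + h + 1) (2 * b + 1)).symm
      have e3 : (2 * b + h + 1).choose (2 * b + 1) * (2 * b + 1) =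
          (2 * b + h + 1) * (2 * b + h).choose (2 * b) :=
        (Nat.add_one_mul_choose_eq (2 * b + h) (2 * b)).symm
      have e4 : (2 * b + h + 2).choose (2 * b + 2) * ((b + 1) * (2 * (2 * b + 1))) =
          (2 * b + h).choose (2 * b) * ((2 * b + h + 2) * (2 * b + h + 1)) := by
        calc (2 * b + h + 2).choose (2 * b + 2) * ((b + 1) * (2 * (2 * b + 1)))
            = ((2 * b + h + 2).choose (2 * b + 2) * (2 * b + 2)) * (2 * b + 1) := by ring
          _ = (2 * b + h + 2) * ((2 * b + h + 1).choose (2 * b + 1) * (2 * b + 1)) := by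
              rw [e2]; ring
          _ = _ := by rw [e3]; ring
      have hg : 2 * (b + 1) + h = 2 * b + h + 2 := by ring
      have hg' : 2 * (b + 1) = 2 * b + 2 := by ring
      rw [hg, hg']
      have hpos : 0 < (b + 1) * (2 * (2 * b + 1)) := by positivity
      refine le_of_mul_le_mul_right ?_ hpos
      calc 5 ^ (b + 1) * (2 * h).choose (b + 1) * ((b + 1) * (2 * (2 * b + 1)))
          = 5 ^ b * ((2 * h).choose (b + 1) * (b + 1)) * (10 * (2 * b + 1)) := by ring
        _ = (5 ^ b * (2 * h).choose b) * (10 * (2 * b + 1) * (2 * h - b)) := by rw [e1]; ring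
        _ ≤ (4 ^ b * (2 * b + h).choose (2 * b)) * (4 * (2 * b + h + 2) * (2 * b + h + 1)) :=
            Nat.mul_le_mul ih (rat_num b h hb)
        _ = 4 ^ (b + 1) * ((2 * b + h).choose (2 * b) * ((2 * b + h + 2) * (2 * b + h + 1))) := by
            ring
        _ = 4 ^ (b + 1) * (2 * b + h + 2).choose (2 * b + 2) * ((b + 1) * (2 * (2 * b + 1))) := by
            rw [← e4]; ring
    · rw [Nat.choose_eq_zero_of_lt (show 2 * h < b + 1 by omega)]
      simp

end Pool.Agent.Helper76.NF
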